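import Pool.Agent.J4.H59.SV.RedPoly
import Pool.Agent.H673R2.HardOn

/-!
# Single-vehicle scheduling on a path with release and handling times is strongly NP-hard

The reduction is from exact cover by 3-sets. The vehicle is forced by a sequence of long jobs (a
clock) to sweep `m + 1` times over `n` sites, one for every triple. In the sweep number `k` a short
job of the row `k` becomes available at every site just after the vehicle has passed it: it can be
processed at once, for the price of a detour, or in the next sweep without a detour. The release
times of the clock jobs force that enough of the short jobs are processed at once, the bound for the
completion time forces that the detours are short; together they force that the same `q` sites are
used in all the rows, and the sizes of the short jobs of a row encode the sites (triples) by which an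
element is covered.
-/

set_option autoImplicit false

namespace Pool.Agent.Results.MP_6e49ee_lc.StronglyNPHard

open Pool.Agent.J4.H59.SV Pool.Agent.H673R2 Pool.Agent.NPC Pool.Agent.NPC.H632

/-- **Single-vehicle scheduling on a path with release and handling times is strongly `NP`-hard.**
For every language in `NP` there is a polynomial-time many-one reduction to the question whether
some schedule has completion time at most the given bound, all of whose instances have the following
properties: the vehicle starts at an end of the path, the travel times are positive and do not depend
on the direction, the handling times are positive, and all numbers (travel, release and handling
times and the bound) are at most the ninth power of the number of vertices. -/
theorem result : NPHardOn (fun x : Instance => x.Nice ∧ x.Small) Instance.Feasible :=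
  npHardOn_of hardPr_X3C poly_redI (fun I hI => ⟨redI_nice I, redI_small hI⟩)
    fun _ hI => redI_correct hI

end Pool.Agent.Results.MP_6e49ee_lc.StronglyNPHard
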